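import Pool.Agent.W564.SC.LibA

/-!
# The `C^r` closing lemma for products of an arbitrary map with a mixing map

`DiffM n N r` is `Diff^r(N)` and `strongTop n N r` its strong (Whitney) `C^r` topology (the usual one,
`N` being compact), `IsPer G z`: `z` is periodic for `G` (`Pool/Agent/H718R2/G0.lean`).
`NonWand`, `PerShadow`, `ChainMix`: `Pool/Agent/W564/SC/Defs.lean`.

Project SC: helpers 564 (host), 54, 74, 131, 135, 177, 216, 271, 298, 315, 320, 335, 352, 366, 397, 428,
486, 554, 597, 683, 696, 699, 756, 782, 806, 816, 917, 923.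
-/

set_option autoImplicit false

open scoped Manifold ContDiff Topology

namespace Pool.Agent.Results.MP_1e8d1a_an.ArbitraryTimesMixing

open Pool.Agent.H718R2.G Pool.Agent.W564.SC

/-- Let `N` be a closed manifold, `1 ≤ r ≤ ∞` and `F ∈ Diff^r(N)`. Let `Θ` be an embedding of a product
`X × Y` of compact metric spaces onto an `F`-invariant subset of `N` which conjugates `F` to `f × h`,
where `f` is an ARBITRARY homeomorphism of `X` and `h` is a chain mixing homeomorphism of `Y` (not a
point) with the periodic shadowing property. Then for every nonwandering point `x` of `f` and every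
`y ∈ Y` the conclusion of the `C^r` closing lemma holds for `F` at the point `Θ(x, y)`. -/
theorem result {n : ℕ} {N : Type*} [TopologicalSpace N] [T2Space N] [CompactSpace N]
    [ChartedSpace (V n) N] [IsManifold (𝓡 n) ∞ N] (r : ℕ∞) (hr : 1 ≤ r) (F : DiffM n N r)
    {X Y : Type*} [MetricSpace X] [CompactSpace X] [MetricSpace Y] [CompactSpace Y] [Nontrivial Y]
    (f : X ≃ₜ X) (h : Y ≃ₜ Y) (hsh : PerShadow h) (hmix : ChainMix h)
    (Θ : X × Y → N) (hΘ : Topology.IsEmbedding Θ) (hconj : ∀ x y, F (Θ (x, y)) = Θ (f x, h y))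
    (x : X) (hx : NonWand f x) (y : Y) :
    ∀ U : Set (DiffM n N r), IsOpen[strongTop n N r] U → F ∈ U → ∃ G ∈ U, IsPer G (Θ (x, y)) :=
  t_A n N r hr F X Y f h hsh hmix Θ hΘ hconj x y hx

end Pool.Agent.Results.MP_1e8d1a_an.ArbitraryTimesMixing
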