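import Pool.Agent.W564.SC.LibB

/-!
# The `C^r` closing lemma for diffeomorphisms with large toral symmetry

`DiffM n N r` is `Diff^r(N)` and `strongTop n N r` its strong (Whitney) `C^r` topology (the usual one,
`N` being compact), `IsPer G z`: `z` is periodic for `G` (`Pool/Agent/H718R2/G0.lean`).
`NonWand`, `FreeTorus`: `Pool/Agent/W564/SC/Defs.lean`.

Project SC: helpers 564 (host), 54, 74, 131, 135, 177, 216, 271, 298, 315, 320, 335, 352, 366, 397, 428,
486, 554, 597, 683, 696, 699, 756, 782, 806, 816, 917, 923.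
-/

set_option autoImplicit false

open scoped Manifold ContDiff Topology

namespace Pool.Agent.Results.MP_1e8d1a_an.BigTorusSymmetry

open Pool.Agent.H718R2.G Pool.Agent.W564.SC

/-- Let `N` be a closed manifold of dimension `n` with a free smooth action `R` of the torus
`𝕋ᵏ = ℝᵏ/ℤᵏ`, `k ≥ 3`, and let `r ≥ 1` be an integer with `r k > (r - 1) n`, that is
`k > (1 - 1/r) n`. For every `F ∈ Diff^r(N)` which commutes with the action the conclusion of the
`C^r` closing lemma holds at every nonwandering point of `F`. -/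
theorem result {k n : ℕ} {N : Type*} [TopologicalSpace N] [T2Space N] [CompactSpace N]
    [ChartedSpace (V n) N] [IsManifold (𝓡 n) ∞ N] (R : V k → N → N) (hR : FreeTorus k n N R)
    (r : ℕ) (hr : 1 ≤ r) (hk : 3 ≤ k) (hrk : (r - 1) * n < r * k)
    (F : DiffM n N (r : ℕ∞)) (hF : ∀ a y, F (R a y) = R a (F y)) (z : N) (hz : NonWand F z) :
    ∀ U : Set (DiffM n N (r : ℕ∞)), IsOpen[strongTop n N (r : ℕ∞)] U → F ∈ U →
      ∃ G ∈ U, IsPer G z :=
  t_B k n N r hr hk hrk R hR F hF z hz

end Pool.Agent.Results.MP_1e8d1a_an.BigTorusSymmetry
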