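import Pool.Agent.W564.SC.LibC

/-!
# The `C^r` closing lemma for `f × id` on `M × S¹`, `f` an arbitrary diffeomorphism

`DiffM n N r` is `Diff^r(N)` and `strongTop n N r` its strong (Whitney) `C^r` topology (the usual one,
`N` being compact), `IsPer G z`: `z` is periodic for `G` (`Pool/Agent/H718R2/G0.lean`).
`NonWand`, `FreeTorus`: `Pool/Agent/W564/SC/Defs.lean`.

Project SC: helpers 564 (host), 54, 74, 131, 135, 177, 216, 271, 298, 315, 320, 335, 352, 366, 397, 428,
486, 554, 597, 683, 696, 699, 756, 782, 806, 816, 917, 923.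
-/

set_option autoImplicit false

open scoped Manifold ContDiff Topology

namespace Pool.Agent.Results.MP_1e8d1a_an.CircleStabilisation

open Pool.Agent.H718R2.G Pool.Agent.W564.SC

/-- Let `N` be a closed manifold and `1 ≤ r ≤ ∞`. Let `F ∈ Diff^r(N)` commute with a free smooth circle
action `R` and preserve a smooth equivariant map `a : N → S¹`; this says that up to a diffeomorphism
`N = M × S¹` and `F = f × id` with `M = a⁻¹(1)`, where `f` is an ARBITRARY diffeomorphism of `M`. Then the
conclusion of the `C^r` closing lemma holds for `F` at every nonwandering point. -/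
theorem result {n : ℕ} {N : Type*} [TopologicalSpace N] [T2Space N] [CompactSpace N]
    [ChartedSpace (V n) N] [IsManifold (𝓡 n) ∞ N] (r : ℕ∞) (hr : 1 ≤ r)
    (R : V 1 → N → N) (hR : FreeTorus 1 n N R) (a : N → ℂ) (ha : ContMDiff (𝓡 n) 𝓘(ℝ, ℂ) ∞ a)
    (ha1 : ∀ y, ‖a y‖ = 1)
    (haR : ∀ t y, a (R t y) = Complex.exp (2 * Real.pi * Complex.I * (t 0 : ℝ)) * a y)
    (F : DiffM n N r) (hF : ∀ t y, F (R t y) = R t (F y)) (haF : ∀ y, a (F y) = a y)
    (z : N) (hz : NonWand F z) :
    ∀ U : Set (DiffM n N r), IsOpen[strongTop n N r] U → F ∈ U → ∃ G ∈ U, IsPer G z :=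
  t_C n N r hr R hR a ha ha1 haR F hF haF z hz

end Pool.Agent.Results.MP_1e8d1a_an.CircleStabilisation
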