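import Pool.Agent.W564.SC.LibE

/-!
# Points which cannot be closed have at most exponentially fast returns

`DiffM n N r` is `Diff^r(N)` and `strongTop n N r` its strong (Whitney) `C^r` topology (the usual one,
`N` being compact), `IsPer G z`: `z` is periodic for `G` (`Pool/Agent/H718R2/G0.lean`).
`GoodChart n N χ z`: `χ` is a chart of the smooth structure of `N` with `χ z = 0` whose target contains
the closed unit ball (`Pool/Agent/W564/SC/Defs.lean`).

Project SC: helpers 564 (host), 19, 131, 357, 451, 509, 723, 878 and the helpers of the closing criterion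
(917, 699, 428, 683, 923, 271, 74, 782, 597).
-/

set_option autoImplicit false

open scoped Manifold ContDiff Topology

namespace Pool.Agent.Results.MP_1e8d1a_an.ExponentialReturns

open Pool.Agent.H718R2.G Pool.Agent.W564.SC

/-- Let `N` be a closed manifold, `2 ≤ r ≤ ∞` and `F ∈ Diff^r(N)` ARBITRARY. There are constants
`C 0 ≤ C 1 ≤ ⋯`, depending only on `F`, such that for every point `z` either `F` can be `C^r`-closed at
`z`, or there are a finite order `k ≤ r`, a neighbourhood `W` of `z` and `c > 0` such that all points of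
`W` return at most exponentially fast: `|F^m y - y| ≥ c exp(- C(k) m)` (in the chart `χ` at `z`) for all
`y ∈ W` and all `m ≥ 1`. -/
theorem result {n : ℕ} {N : Type*} [TopologicalSpace N] [T2Space N] [CompactSpace N]
    [ChartedSpace (V n) N] [IsManifold (𝓡 n) ∞ N] (r : ℕ∞) (hr : 2 ≤ r) (F : DiffM n N r) :
    ∃ C : ℕ → ℝ, Monotone C ∧ ∀ (z : N) (χ : OpenPartialHomeomorph N (V n)), GoodChart n N χ z →
      (∀ U : Set (DiffM n N r), IsOpen[strongTop n N r] U → F ∈ U → ∃ G ∈ U, IsPer G z) ∨
      ∃ k : ℕ, (k : ℕ∞) ≤ r ∧ ∃ W ∈ 𝓝 z, W ⊆ χ.source ∧ ∃ c : ℝ, 0 < c ∧ ∀ y ∈ W, ∀ m : ℕ,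
        1 ≤ m → F^[m] y ∈ χ.source → c * Real.exp (-(C k * m)) ≤ ‖χ (F^[m] y) - χ y‖ :=
  t_E n N r hr F

end Pool.Agent.Results.MP_1e8d1a_an.ExponentialReturns
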