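import Pool.Agent.W733.CL.Main
import Pool.Agent.W733.CL.S1
import Pool.Agent.W733.CL.S2
import Pool.Agent.W733.CL.S3

/-!
# The `C^r` closing lemma for skew products over Anosov diffeomorphisms with values in an action of
`ℝᵏ`, under zero drift
-/

set_option autoImplicit false

open scoped Manifold ContDiff Topology
open Set Filter Metric

namespace Pool.Agent.Results.MP_1e8d1a_an.FlowSkewProductClosing

open Pool.Agent.H721R2 Pool.Agent.H789R2.AN Pool.Agent.W733.CL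

universe u v

/-- Let `f` be a transitive Anosov diffeomorphism of class `C^r`, `1 ≤ r ≤ ∞`, of a closed connected
manifold `M`, `Ψ` a `C^r` action of `ℝᵏ` on a closed manifold `N`, `τ : M → ℝᵏ` of class `C^r` with
zero drift (there are periodic points `p`, `f^n p = p`, with `‖τ(p) + ... + τ(f^(n-1) p)‖ ≤ ε n`, for
all `ε > 0`). Then every point `z` of `M × N` can be made periodic by an arbitrarily `C^r` small
perturbation of the skew product `F(x, y) = (f x, Ψ (τ x, y))`. -/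
theorem result
    {E₁ : Type u} [NormedAddCommGroup E₁] [NormedSpace ℝ E₁] [FiniteDimensional ℝ E₁]
    {E₂ : Type u} [NormedAddCommGroup E₂] [NormedSpace ℝ E₂] [FiniteDimensional ℝ E₂]
    {M : Type v} [TopologicalSpace M] [T2Space M] [CompactSpace M] [ConnectedSpace M]
    [ChartedSpace E₁ M] [IsManifold 𝓘(ℝ, E₁) ∞ M]
    {N : Type v} [TopologicalSpace N] [T2Space N] [CompactSpace N]
    [ChartedSpace E₂ N] [IsManifold 𝓘(ℝ, E₂) ∞ N]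
    {k : ℕ} {r : ℕ∞} (hr : 1 ≤ r) (f : Diffeomorph 𝓘(ℝ, E₁) 𝓘(ℝ, E₁) M M r)
    (f₁ : Diffeomorph 𝓘(ℝ, E₁) 𝓘(ℝ, E₁) M M 1) (hf₁ : ∀ x, f₁ x = f x)
    (Es Eu : ∀ x : M, Submodule ℝ (TangentSpace 𝓘(ℝ, E₁) x)) (hA : IsAnosov f₁ Es Eu)
    (htr : TopTransitive f) {Ψ : Rk k × N → N} (hΨ : IsAction (E₂ := E₂) k r Ψ)
    (τ : M → Rk k) (hτ : ContMDiff 𝓘(ℝ, E₁) 𝓘(ℝ, Rk k) r τ)
    (hd : ∀ ε : ℝ, 0 < ε → ∃ (n : ℕ) (p : M), 1 ≤ n ∧ f^[n] p = p ∧ ‖vsum f τ n p‖ ≤ ε * n)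
    (F : Diffeomorph (𝓘(ℝ, E₁).prod 𝓘(ℝ, E₂)) (𝓘(ℝ, E₁).prod 𝓘(ℝ, E₂)) (M × N) (M × N) r)
    (hF : ∀ x y, F (x, y) = (f x, Ψ (τ x, y))) (z : M × N)
    (U : Set (Diffeomorph (𝓘(ℝ, E₁).prod 𝓘(ℝ, E₂)) (𝓘(ℝ, E₁).prod 𝓘(ℝ, E₂)) (M × N) (M × N) r))
    (hU : IsOpen[strongTop (𝓘(ℝ, E₁).prod 𝓘(ℝ, E₂)) (M × N) r] U) (hFU : F ∈ U) :
    ∃ G ∈ U, IsPer G z :=
  main s1 s2 s3 hr f f₁ hf₁ Es Eu hA htr hΨ τ hτ hd F hF z U hU hFU

end Pool.Agent.Results.MP_1e8d1a_an.FlowSkewProductClosing
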